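import Pool.Agent.W809.ZQ.Stm

set_option autoImplicit false

open Set Filter Topology

namespace Pool.Agent.W701.ZQ

open Pool.Agent.W809.ZQ

theorem zdk : S_ZDK := by
  intro K _ _ _ _ _ n f hf hinj G hG D hD hrel hZD
  have hemb : IsEmbedding f := (hf.isClosedEmbedding hinj).isEmbedding
  set N : Subgroup G := (D.comap f).subgroupOf G with hN
  have memN : ∀ g : G, g ∈ N ↔ f (g : K) ∈ D := fun g => by
    rw [hN, Subgroup.mem_subgroupOf, Subgroup.mem_comap]
  -- the embedding of `N`
  let φ : N → U n := fun g => f ((g : G) : K)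
  have hφ : IsEmbedding φ := hemb.comp (IsEmbedding.subtypeVal.comp IsEmbedding.subtypeVal)
  let ψ : N → D := fun g => ⟨f ((g : G) : K), (memN g).1 g.2⟩
  have hψ : Continuous ψ := Continuous.subtype_mk hφ.continuous _
  have hclosed : IsClosed (N : Set G) := by
    rw [← closure_subset_iff_isClosed]
    intro x hx
    have hc : Continuous (fun g : G => f (g : K)) := hf.comp continuous_subtype_val
    have h1 : f (x : K) ∈ closure ((fun g : G => f (g : K)) '' (N : Set G)) :=
      image_closure_subset_closure_image hc ⟨x, hx, rfl⟩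
    have h2 : (fun g : G => f (g : K)) '' (N : Set G) ⊆ (D : Set (U n)) := by
      rintro _ ⟨g, hg, rfl⟩
      exact (memN g).1 hg
    exact (memN x).2 (hrel _ ⟨x, x.2, rfl⟩ (closure_mono h2 h1))
  have hmetU : TopologicalSpace.MetrizableSpace (U n) := by
    have h1 : TopologicalSpace.MetrizableSpace (Mt n) :=
      inferInstanceAs (TopologicalSpace.MetrizableSpace (Fin n → Fin n → ℂ))
    exact IsEmbedding.subtypeVal.metrizableSpace
  have hmet : TopologicalSpace.MetrizableSpace N := hφ.metrizableSpace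
  have hzero : ZeroDim N := by
    refine TopologicalSpace.isTopologicalBasis_of_isOpen_of_nhds (fun s hs => hs.isOpen) ?_
    intro a u hau hu
    have hu' : IsOpen ((fun x : N => a * x) ⁻¹' u) := hu.preimage (continuous_const_mul a)
    obtain ⟨O, hO, hOu⟩ := hφ.isOpen_iff.1 hu'
    have h1O : (1 : U n) ∈ O := by
      have h1 : (1 : N) ∈ φ ⁻¹' O := by
        rw [hOu]
        simpa using hau
      have h2 : φ 1 = 1 := by
        change f (1 : K) = 1
        exact map_one f
      rw [← h2]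
      exact h1
    obtain ⟨Q, hQ, h1Q, hQO⟩ := hZD O (hO.mem_nhds h1O)
    refine ⟨(fun x : N => a⁻¹ * x) ⁻¹' (ψ ⁻¹' Q), ?_, ?_, ?_⟩
    · exact (hQ.preimage hψ).preimage (continuous_const_mul a⁻¹)
    · change ψ (a⁻¹ * a) ∈ Q
      rw [inv_mul_cancel]
      have h2 : ψ 1 = 1 := by
        apply Subtype.ext
        change f (1 : K) = 1
        exact map_one f
      rw [h2]
      exact h1Q
    · intro x hx
      have h3 : a⁻¹ * x ∈ φ ⁻¹' O := hQO _ hx
      rw [hOu] at h3
      have h4 : a * (a⁻¹ * x) ∈ u := h3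
      rwa [mul_inv_cancel_left] at h4
  have hdisc := hG N hclosed hzero hmet
  have h1 : IsOpen ({1} : Set N) := isOpen_discrete _
  obtain ⟨O, hO, hO1⟩ := hφ.isOpen_iff.1 h1
  have hφ1 : φ 1 = 1 := by
    change f (1 : K) = 1
    exact map_one f
  refine ⟨O, hO.mem_nhds ?_, ?_⟩
  · have h2 : (1 : N) ∈ φ ⁻¹' O := by rw [hO1]; exact mem_singleton _
    rw [← hφ1]
    exact h2
  · intro x hxD hxO
    obtain ⟨g, hg, rfl⟩ := hD hxD
    have h2 : (⟨⟨g, hg⟩, (memN ⟨g, hg⟩).2 hxD⟩ : N) ∈ φ ⁻¹' O := hxO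
    rw [hO1] at h2
    have h3 : g = 1 := congrArg (fun z : N => ((z : G) : K)) (mem_singleton_iff.1 h2)
    rw [h3, map_one]

end Pool.Agent.W701.ZQ
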